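import Pool.Agent.Work.MP_d5a5f5_ag.C8.Final

/-!
Unirationality of conic bundle surfaces `x² - a y² = F(t)` with `F` of degree eight, in
characteristic zero.
-/

namespace Pool.Agent.Results.MP_d5a5f5_ag.ConicBundleEight

open Polynomial Pool.Agent.Work.MP_d5a5f5_ag.C8

/-- Let `k` be a field of characteristic zero, `a` a nonzero element of `k` and `F` a monic polynomial
of degree eight over `k` without term of degree seven (every conic bundle surface
`x² - a y² = F(t)` with `F` of degree eight or seven and with a `k`-point on a smooth fibre takes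
this form when the point is moved to the fibre at infinity). If the coefficients of `t⁵` and `t³` in
`F` are not both zero, then the surface `x² - a y² = F(t)` is `k`-unirational. -/
theorem result {k : Type*} [Field k] [CharZero k] (a : k) (ha : a ≠ 0) (F : k[X]) (hF : F.Monic)
    (hd : F.natDegree = 8) (h7 : F.coeff 7 = 0) (h : ¬ (F.coeff 5 = 0 ∧ F.coeff 3 = 0)) :
    Unirational a F := by
  have h8 : F.coeff 8 = 1 := by
    have := hF.coeff_natDegree
    rwa [hd] at this
  have hFF : F = X ^ 8 + C (F.coeff 6) * X ^ 6 + C (F.coeff 5) * X ^ 5 + C (F.coeff 4) * X ^ 4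
      + C (F.coeff 3) * X ^ 3 + C (F.coeff 2) * X ^ 2 + C (F.coeff 1) * X + C (F.coeff 0) := by
    conv_lhs => rw [F.as_sum_range_C_mul_X_pow, hd]
    simp only [Finset.sum_range_succ, Finset.sum_range_zero, h8, h7, C_1, C_0, pow_zero, pow_one]
    ring
  rw [hFF]
  exact main8 a _ _ _ _ _ _ _ ha h

end Pool.Agent.Results.MP_d5a5f5_ag.ConicBundleEight
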