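import Pool.Agent.Work.MP_d5a5f5_ag.DP.Final

/-!
Unirationality of del Pezzo surfaces of degree two in characteristic zero.

The surface is the double plane `X : w² = Q(x₀, x₁, x₂)` branched along a smooth plane quartic
`B : Q = 0`.
-/

namespace Pool.Agent.Results.MP_d5a5f5_ag.DelPezzoTwo

open MvPolynomial Pool.Agent.Work.MP_d5a5f5_ag.DP

/-- Let `k` be a field of characteristic zero and let `Q` be a ternary quartic form over `k` with
smooth zero curve `B`. If the del Pezzo surface `X : w² = Q` of degree two has a `k`-rational point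
`(p, w)` which does not lie on the ramification curve (`w ≠ 0`), or which lies on it (`w = 0`, that
is, `p` is a point of `B`) but is neither a hyperflex of `B` nor fixed by an involution of `B`, then
`X` is `k`-unirational. -/
theorem result {k : Type*} [Field k] [CharZero k] (Q : MvPolynomial (Fin 3) k)
    (hQ : Q.IsHomogeneous 4) (hs : Smooth Q) (p : Fin 3 → k) (w : k) (hp : p ≠ 0)
    (hw : w ^ 2 = aeval p Q)
    (h : w ≠ 0 ∨ (¬ Hyperflex Q p ∧ ¬ FixedByInvolution Q p)) :
    Unirational Q := by
  refine main Q hQ hs p w hp hw (h.imp id fun ⟨h1, h2⟩ => ⟨?_, ?_⟩)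
  · unfold Hyperflex at h1
    push Not at h1
    obtain ⟨v, s, h3, h4⟩ := h1
    exact ⟨v, s, h3, h4⟩
  · intro τ h3 h4 h5 x
    by_contra h6
    exact h2 ⟨τ, fun h7 => h6 (by rw [h7]; rfl), h3, h4, h5⟩

end Pool.Agent.Results.MP_d5a5f5_ag.DelPezzoTwo
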