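import Pool.Agent.Work.MP_d5a5f5_ag.DS.Final

/-!
Unirationality of double covers of projective space branched in a quartic, in characteristic zero.

`X : w² = Q(x)` is the double cover of the projective space of dimension `n - 1 ≥ 3` branched along a
smooth quartic hypersurface `B : Q = 0` (for `n = 4` a quartic double solid, that is, a del Pezzo
threefold of degree two).
-/

namespace Pool.Agent.Results.MP_d5a5f5_ag.DoubleSolids

open MvPolynomial Pool.Agent.Work.MP_d5a5f5_ag.DS

/-- Let `k` be a field of characteristic zero and let `Q` be a quartic form over `k` in `n ≥ 4`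
variables with smooth zero hypersurface `B`. If the variety `X : w² = Q` has a `k`-rational point
`(p, w)` which does not lie on the ramification divisor (`w ≠ 0`), or which lies on it (`w = 0`, that
is, `p` is a point of `B`) but is not a star point of `B`, then `X` is `k`-unirational. -/
theorem result {k : Type*} [Field k] [CharZero k] {n : ℕ} (hn : 4 ≤ n)
    (Q : MvPolynomial (Fin n) k) (hQ : Q.IsHomogeneous 4) (hs : Smooth Q) (p : Fin n → k) (w : k)
    (hp : p ≠ 0) (hw : w ^ 2 = aeval p Q) (h : w ≠ 0 ∨ ¬ StarPoint Q p) :
    Unirational Q :=
  main hn Q hQ hs p w hp hw h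

end Pool.Agent.Results.MP_d5a5f5_ag.DoubleSolids
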