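import Pool.Agent.Work.MP_d5a5f5_ag.Final
import Pool.Agent.Work.MP_d5a5f5_ag.ItemRK
import Pool.Agent.Work.MP_d5a5f5_ag.ItemVAN
import Pool.Agent.Work.MP_d5a5f5_ag.ItemPRIM

/-!
A smooth projective rationally connected surface over an infinite field, with a rational
point, which is not unirational over that field.

Over `k = F_2(d, e)` let
`α(x) = (x₁² + x₂x₃ + d x₂² + e x₃², x₂² + x₁x₃, x₃²)` and
`β(y) = (y₁², y₂² + y₁y₃, y₃² + y₁y₂)`. The surface is
`X = {(x, y) : α(x) is parallel to β(y)}` in the product of two projective planes, embedded in
projective 8-space by the Segre embedding (a classical Enriques surface).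
-/

namespace Pool.Agent.Results.MP_d5a5f5_ag.TwoPointSurface

open MvPolynomial Pool.Agent.Work.MP_d5a5f5_ag

/-- There are an infinite field `k` (of characteristic two) and a smooth, projective,
geometrically integral surface `X` over `k`, given by homogeneous equations `F = 0`, which is
rationally connected, and even unirational over the algebraic closure of `k`, and which has
two different `k`-rational points `P`, `Q`, such that every rational map from projective
`n`-space to `X` defined over `k` is constant with value `P` or `Q`, for every `n` (for `n = 0`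
this says that `P` and `Q` are the only `k`-rational points). In particular `X` has a
`k`-rational point and is not `k`-unirational. -/
theorem result :
    ∃ (k : Type) (_ : Field k) (_ : Infinite k) (_ : CharP k 2) (σ ι : Type) (_ : Fintype σ)
      (_ : Fintype ι) (F : ι → MvPolynomial σ k),
      IsSmoothProjectiveVariety F 2 ∧
      RationallyConnected F ∧
      Unirational F (AlgebraicClosure k) ∧
      (∃ P Q : σ → k, IsPoint F P ∧ IsPoint F Q ∧ (∀ c : k, P ≠ c • Q) ∧
        ∀ (n : ℕ) (φ : σ → MvPolynomial (Fin n) k), IsPoint F φ →
          ∃ c : MvPolynomial (Fin n) k, c ≠ 0 ∧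
            ((∀ s, φ s = c * C (P s)) ∨ (∀ s, φ s = c * C (Q s)))) ∧
      ¬ Unirational F k :=
  final (prfRK prfNZ prfTAN)
    (prfVAN prfAB (prfBR prfAB) (prfCONE prfNZ) prfDEN prfGOOD) (prfPRIM prfNZ)

end Pool.Agent.Results.MP_d5a5f5_ag.TwoPointSurface
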